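import Pool.Agent.TH931.LP.StmB

/-!
# Task B3 of project LP931: upper bounds of the Laplace transform near `H`
-/

set_option autoImplicit false

open MeasureTheory Set
open scoped ENNReal Matrix Pointwise

noncomputable section

namespace Pool.Agent.TH757.LP931.B3

open Pool.Agent.TH931.LP
open Pool.Agent.W678.LM (FK Mp Cb)
open Pool.Agent.W686.LP (SB)

variable {n : ℕ} {U V : Type}

lemma vt_dot {F : Fr n U V} (hG : Good F) (y : Fin n → ℝ) : F.v (F.vt y) ⬝ᵥ y = F.h y :=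
  hG.dhalf.eq y

lemma sum_mu [Fintype U] {F : Fr n U V} (hG : Good F) {α : U → V → ℝ}
    {mu : (Fin n → ℝ) → U → ℝ} (hK : Ker F α mu) (y : Fin n → ℝ) : ∑ a, mu y a = F.h y := by
  have h1 : F.v (F.vt y) ⬝ᵥ (∑ a, mu y a • F.u a) = ∑ a, mu y a := by
    rw [dotProduct_sum]
    refine Finset.sum_congr rfl fun a _ => ?_
    rw [dotProduct_smul, smul_eq_mul]
    by_cases h : mu y a = 0
    · rw [h, zero_mul]
    · rw [dotProduct_comm, hK.supp y a h, mul_one]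
  rw [hK.bary y, vt_dot hG] at h1
  exact h1.symm

/-- substitution `x = v + x' / p` -/
lemma lint_subst (v : Fin n → ℝ) {p : ℝ} (hp : 0 < p) (g : (Fin n → ℝ) → ℝ≥0∞) 
    (hg : Measurable g) :
    ∫⁻ x, g x = ENNReal.ofReal ((p ^ n)⁻¹) * ∫⁻ x, g (v + p⁻¹ • x) := by
  have h1 : ∫⁻ x, g x = ∫⁻ x, g (v + x) := (lintegral_add_left_eq_self g v).symm
  have hp' : p⁻¹ ≠ 0 := inv_ne_zero hp.ne'
  have h2 := Measure.map_addHaar_smul (volume : Measure (Fin n → ℝ)) hp'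
  have hm : Measurable fun x : Fin n → ℝ => g (v + x) := hg.comp (measurable_const_add v)
  have h3 : ∫⁻ x, g (v + p⁻¹ • x) = ∫⁻ x, g (v + x) ∂(Measure.map (fun x => p⁻¹ • x)
      (volume : Measure (Fin n → ℝ))) := by
    rw [lintegral_map hm (measurable_const_smul _)]
  rw [h1, h3, h2, lintegral_smul_measure, smul_eq_mul, ← mul_assoc, ← ENNReal.ofReal_mul (by positivity)]
  have : (p ^ n)⁻¹ * |(p⁻¹ ^ Module.finrank ℝ (Fin n → ℝ))⁻¹| = 1 := by
    rw [Module.finrank_fin_fun, abs_of_pos (by positivity)]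
    have : p ^ n ≠ 0 := by positivity
    rw [inv_pow, inv_inv, inv_mul_cancel₀ this]
  rw [this, ENNReal.ofReal_one, one_mul]

lemma key [Fintype U] {F : Fr n U V} (hG : Good F) {mu : (Fin n → ℝ) → U → ℝ}
    {LQ : (Fin n → ℝ) → ℝ} {Y : Set (Fin n → ℝ)} {qa : ℝ} (hQ : QC F mu LQ Y qa) {p : ℝ}
    (hp : 0 < p) {y : Fin n → ℝ} (hy : y ∈ Y) (ψ : U → ℝ) :
    ∫⁻ x in {x | ∀ a, F.u a ⬝ᵥ F.v (F.vt y) = 1 → F.u a ⬝ᵥ x ≤ 1 + ψ a / p},
      ENNReal.ofReal (Real.exp (p * (x ⬝ᵥ y))) ≤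
    ENNReal.ofReal (Real.exp (p * F.h y + ∑ a, mu y a * ψ a + LQ y) / p ^ n) := by
  obtain ⟨v, hv⟩ : ∃ v, v = F.v (F.vt y) := ⟨_, rfl⟩
  have hvy : v ⬝ᵥ y = F.h y := by rw [hv]; exact vt_dot hG y
  have hcl : ∀ c : U → ℝ, MeasurableSet {x : Fin n → ℝ | ∀ a, F.u a ⬝ᵥ v = 1 → F.u a ⬝ᵥ x ≤ c a} := by
    intro c
    have : {x : Fin n → ℝ | ∀ a, F.u a ⬝ᵥ v = 1 → F.u a ⬝ᵥ x ≤ c a} =
        ⋂ a, ⋂ (_ : F.u a ⬝ᵥ v = 1), {x | F.u a ⬝ᵥ x ≤ c a} := by
      ext x; simp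
    rw [this]
    refine (isClosed_iInter fun a => isClosed_iInter fun _ => ?_).measurableSet
    exact isClosed_le (by fun_prop) continuous_const
  have hc := hQ.cert y hy ψ
  rw [← hv] at hc ⊢
  have hm1 : Measurable fun x : Fin n → ℝ => ENNReal.ofReal (Real.exp (p * (x ⬝ᵥ y))) := by
    refine ENNReal.measurable_ofReal.comp (Continuous.measurable ?_)
    fun_prop
  rw [← lintegral_indicator (hcl _), lint_subst v hp _ (hm1.indicator (hcl _))]
  have e : ∀ x : Fin n → ℝ, {x | ∀ a, F.u a ⬝ᵥ v = 1 → F.u a ⬝ᵥ x ≤ 1 + ψ a / p}.indicator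
      (fun x => ENNReal.ofReal (Real.exp (p * (x ⬝ᵥ y)))) (v + p⁻¹ • x) =
      ENNReal.ofReal (Real.exp (p * F.h y)) * {x | ∀ a, F.u a ⬝ᵥ v = 1 → F.u a ⬝ᵥ x ≤ ψ a}.indicator
      (fun x => ENNReal.ofReal (Real.exp (x ⬝ᵥ y))) x := by
    intro x
    have hiff : (v + p⁻¹ • x) ∈ {x : Fin n → ℝ | ∀ a, F.u a ⬝ᵥ v = 1 → F.u a ⬝ᵥ x ≤ 1 + ψ a / p} ↔
        x ∈ {x : Fin n → ℝ | ∀ a, F.u a ⬝ᵥ v = 1 → F.u a ⬝ᵥ x ≤ ψ a} := by
      simp only [mem_ofPred_eq]
      refine forall_congr' fun a => imp_congr_right fun ha => ?_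
      rw [dotProduct_add, ha, dotProduct_smul, smul_eq_mul, div_eq_inv_mul]
      constructor
      · intro h
        have h' : p⁻¹ * (F.u a ⬝ᵥ x) ≤ p⁻¹ * ψ a := by linarith
        exact le_of_mul_le_mul_left h' (by positivity)
      · intro h
        have h' : p⁻¹ * (F.u a ⬝ᵥ x) ≤ p⁻¹ * ψ a := mul_le_mul_of_nonneg_left h (by positivity)
        linarith
    by_cases hx : x ∈ {x : Fin n → ℝ | ∀ a, F.u a ⬝ᵥ v = 1 → F.u a ⬝ᵥ x ≤ ψ a}
    · rw [indicator_of_mem (hiff.mpr hx), indicator_of_mem hx, ← ENNReal.ofReal_mul (by positivity),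
        ← Real.exp_add]
      congr 2
      rw [add_dotProduct, smul_dotProduct, smul_eq_mul, hvy]
      field_simp
    · rw [indicator_of_notMem (fun h => hx (hiff.mp h)), indicator_of_notMem hx, mul_zero]
  simp_rw [e]
  rw [lintegral_const_mul' _ _ ENNReal.ofReal_ne_top, lintegral_indicator (hcl _)]
  calc ENNReal.ofReal ((p ^ n)⁻¹) * (ENNReal.ofReal (Real.exp (p * F.h y)) *
        ∫⁻ x in {x | ∀ a, F.u a ⬝ᵥ v = 1 → F.u a ⬝ᵥ x ≤ ψ a}, ENNReal.ofReal (Real.exp (x ⬝ᵥ y)))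
      ≤ ENNReal.ofReal ((p ^ n)⁻¹) * (ENNReal.ofReal (Real.exp (p * F.h y)) *
        ENNReal.ofReal (Real.exp (∑ a, mu y a * ψ a + LQ y))) := by gcongr
    _ = _ := by
        rw [← ENNReal.ofReal_mul (by positivity), ← ENNReal.ofReal_mul (by positivity),
          ← Real.exp_add, ← add_assoc]
        congr 1
        rw [div_eq_inv_mul]

lemma set_int_le [Fintype U] {F : Fr n U V} (hG : Good F) {mu : (Fin n → ℝ) → U → ℝ}
    {LQ : (Fin n → ℝ) → ℝ} {Y : Set (Fin n → ℝ)} {qa : ℝ} (hQ : QC F mu LQ Y qa) {p : ℝ}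
    (hp : 0 < p) {y : Fin n → ℝ} (hy : y ∈ Y) (ψ : U → ℝ) {A : Set (Fin n → ℝ)}
    (_hA : MeasurableSet A)
    (h : ∀ x ∈ A, ∀ a, F.u a ⬝ᵥ F.v (F.vt y) = 1 → F.u a ⬝ᵥ x ≤ 1 + ψ a / p) :
    ∫ x in A, Real.exp (p * (x ⬝ᵥ y)) ≤
      Real.exp (p * F.h y + ∑ a, mu y a * ψ a + LQ y) / p ^ n := by
  rw [integral_eq_lintegral_of_nonneg_ae (Filter.Eventually.of_forall fun x => (Real.exp_pos _).le)
    (by fun_prop)]
  refine ENNReal.toReal_le_of_le_ofReal (by positivity) ?_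
  exact (lintegral_mono_set (fun x hx => h x hx)).trans (key hG hQ hp hy ψ)

theorem b3 : S_b3 := by
  intro n U V _ _ F α mu LQ Y qa hG hK hQ
  have hexp : ∀ (p : ℝ) (y : Fin n → ℝ) (K : Set (Fin n → ℝ)), IsCompact K →
      IntegrableOn (fun x => Real.exp (p * (x ⬝ᵥ y))) K := by
    intro p y K hKc
    exact ContinuousOn.integrableOn_compact hKc (Continuous.continuousOn (by fun_prop))
  refine ⟨?_, ?_⟩
  · intro p C hp hC K hKc hN y hy
    have h1 := set_int_le hG hQ hp hy (fun _ => C) hKc.measurableSet (fun x hx a _ =>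
      (hG.half.le a x).trans (hN x hx))
    have h2 : ∑ a, mu y a * C = C * F.h y := by
      rw [← Finset.sum_mul, sum_mu hG hK, mul_comm]
    rw [h2] at h1
    exact h1
  · intro p r σ hp K hKc y hy ψ hnear hfar
    obtain ⟨v, hv⟩ : ∃ v, v = F.v (F.vt y) := ⟨_, rfl⟩
    rw [← hv] at hnear hfar
    obtain ⟨B, hB⟩ : ∃ B : Set (Fin n → ℝ), B = {x | ‖x - v‖ ≤ r} := ⟨_, rfl⟩
    have hBm : MeasurableSet B := by
      rw [hB]
      exact (isClosed_le (by fun_prop) continuous_const).measurableSet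
    have hi := hexp p y K hKc
    have hsplit : FK p K y = (∫ x in K ∩ B, Real.exp (p * (x ⬝ᵥ y))) +
        (∫ x in K \ B, Real.exp (p * (x ⬝ᵥ y))) := by
      unfold FK
      exact (integral_inter_add_sdiff hBm hi).symm
    rw [hsplit]
    refine add_le_add ?_ ?_
    · refine set_int_le hG hQ hp hy ψ (hKc.measurableSet.inter hBm) ?_
      rintro x ⟨hx1, hx2⟩ a ha
      rw [hB] at hx2
      rw [← hv] at ha
      exact hnear x hx1 hx2 a ha
    · have hKfin : volume (K \ B) < ∞ := lt_of_le_of_lt (measure_mono sdiff_subset) hKc.measure_lt_top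
      calc ∫ x in K \ B, Real.exp (p * (x ⬝ᵥ y))
          ≤ ∫ x in K \ B, Real.exp (p * (F.h y - σ)) := by
            refine setIntegral_mono_on (hi.mono_set sdiff_subset) ?_
              (hKc.measurableSet.diff hBm) ?_
            · exact integrableOn_const hKfin.ne
            · rintro x ⟨hx1, hx2⟩
              rw [hB, mem_ofPred_eq, not_le] at hx2
              have := hfar x hx1 hx2
              exact Real.exp_le_exp.mpr (mul_le_mul_of_nonneg_left this hp.le)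
        _ = volume.real (K \ B) * Real.exp (p * (F.h y - σ)) := by
            rw [setIntegral_const, smul_eq_mul]
        _ ≤ volume.real K * Real.exp (p * (F.h y - σ)) := by
            refine mul_le_mul_of_nonneg_right ?_ (Real.exp_pos _).le
            exact measureReal_mono sdiff_subset hKc.measure_lt_top.ne

end Pool.Agent.TH757.LP931.B3
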